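import Mathlib

namespace Pool.Agent.Results.MP_fbe9f6_co.Related

open SimpleGraph

/-- `H` has an `F`-free colouring with `k` colours: no colour class contains an induced copy of `F`. -/
def FreeCol {α V : Type} (F : SimpleGraph α) (H : SimpleGraph V) (k : ℕ) : Prop :=
  ∃ c : V → Fin k, ∀ (e : F ↪g H) (i : Fin k), ¬ ∀ v, c (e v) = i

def ext {V : Type} (H : SimpleGraph V) (W : Type) : SimpleGraph (V ⊕ ((V → Prop) × W)) where
  Adj x y := match x, y with
    | .inl u, .inl v => H.Adj u v
    | .inl u, .inr f => f.1 u
    | .inr f, .inl u => f.1 u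
    | .inr _, .inr _ => False
  symm := ⟨by
    rintro (u | f) (v | g) h
    · exact h.symm
    · exact h
    · exact h
    · exact h⟩
  loopless := ⟨by
    rintro (u | f) h
    · exact H.irrefl h
    · exact h⟩

theorem key {α : Type} [Fintype α] [Nonempty α] (G : SimpleGraph α) (s : α → Bool)
    (hs : ∀ a b, G.Adj a b → s a ≠ s b) (r : ℕ) (l : ℕ) :
    ∃ (V : Type) (_ : Fintype V) (H : SimpleGraph V), H.Colorable l ∧
      ∀ c : V → Fin r, (∀ (e : G ↪g H) (i : Fin r), ¬ ∀ v, c (e v) = i) → 0 < r →
        ∃ (col : Fin l ↪ Fin r) (x : Fin l → α ↪ V), (∀ i a, c (x i a) = col i) ∧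
          ∀ i a b, ¬ H.Adj (x i a) (x i b) := by
  classical
  induction l with
  | zero =>
    refine ⟨Empty, inferInstance, ⊥, ⟨Coloring.mk (fun v => v.elim) (fun {v} => v.elim)⟩, ?_⟩
    intro c _ _
    exact ⟨Function.Embedding.ofIsEmpty, fun i => i.elim0, fun i => i.elim0, fun i => i.elim0⟩
  | succ l ih =>
    obtain ⟨V, iV, H, ⟨C⟩, hH⟩ := ih
    refine ⟨V ⊕ ((V → Prop) × ((Fin r → α) × (Fin r × α))), inferInstance, ext H _, ?_, ?_⟩
    · refine ⟨Coloring.mk (fun v => match v with
        | .inl u => (C u).castSucc
        | .inr _ => Fin.last l) ?_⟩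
      rintro (u | f) (v | g) h
      · simpa using C.valid h
      · exact (Fin.castSucc_lt_last _).ne
      · exact (Fin.castSucc_lt_last _).ne'
      · exact h.elim
    · intro c hc hr
      have hc' : ∀ (e : G ↪g H) (i : Fin r), ¬ ∀ v, (c ∘ Sum.inl) (e v) = i := by
        intro e i h
        exact hc ⟨e.toEmbedding.trans Function.Embedding.inl, fun {a b} => e.map_rel_iff⟩ i h
      obtain ⟨col, x, hx1, hx2⟩ := hH (c ∘ Sum.inl) hc' hr
      have hb : ∀ i : Fin l, ∃ b : α, ∀ (f : V → Prop) (β : Fin r → α) (m : Fin r × α),
          β (col i) = b → (∀ a, f (x i a) ↔ G.Adj a b) → c (.inr (f, β, m)) ≠ col i := by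
        intro i
        by_contra hcon
        push Not at hcon
        choose f β m h1 h2 h3 using hcon
        refine hc ⟨⟨fun a => if s a then .inl (x i a) else .inr (f a, β a, m a), ?_⟩, ?_⟩
          (col i) ?_
        · intro a b hab
          by_cases ha : s a = true <;> by_cases hb : s b = true <;> simp [ha, hb] at hab
          · exact hab
          · rw [← h1 a, ← h1 b, hab.2.1]
        · intro a b
          by_cases ha : s a = true <;> by_cases hb : s b = true <;>
            simp only [Function.Embedding.coeFn_mk, ha, hb, if_true, if_false, ext,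
              Bool.false_eq_true]
          · constructor
            · intro h; exact (hx2 i a b h).elim
            · intro h; exact (hs a b h (by rw [ha, hb])).elim
          · exact h2 b a
          · rw [h2 a b, G.adj_comm]
          · constructor
            · intro h; exact h.elim
            · intro h
              exact hs a b h (by simp only [Bool.not_eq_true] at ha hb; rw [ha, hb])
        · intro a
          by_cases ha : s a = true
          · simp only [RelEmbedding.coe_mk, Function.Embedding.coeFn_mk, ha, if_true]
            exact hx1 i a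
          · simp only [RelEmbedding.coe_mk, Function.Embedding.coeFn_mk, ha, if_false,
              Bool.false_eq_true]
            exact h3 a
      choose b hb using hb
      let f : V → Prop := fun v => ∃ i a, x i a = v ∧ G.Adj a (b i)
      let β : Fin r → α := Function.extend col b (fun _ => Classical.arbitrary α)
      have hβ : ∀ i, β (col i) = b i := fun i => col.injective.extend_apply _ _ i
      have hf : ∀ i a, f (x i a) ↔ G.Adj a (b i) := by
        intro i a
        constructor
        · rintro ⟨j, a', h1, h2⟩
          have hij : j = i := by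
            apply col.injective
            rw [← hx1 j a', ← hx1 i a, h1]
          subst hij
          rw [← (x j).injective h1]; exact h2
        · intro h; exact ⟨i, a, rfl, h⟩
      have hnew : ∀ m i, c (.inr (f, β, m)) ≠ col i := fun m i => hb i f β m (hβ i) (hf i)
      have : Nonempty (Fin r) := ⟨⟨0, hr⟩⟩
      obtain ⟨k, hk⟩ := Fintype.exists_le_card_fiber_of_mul_le_card
        (fun m : Fin r × α => c (.inr (f, β, m))) (n := Fintype.card α) (by simp)
      have hk' : Fintype.card α ≤ Fintype.card {m : Fin r × α // c (.inr (f, β, m)) = k} := by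
        rw [Fintype.card_subtype]; exact hk
      obtain ⟨y⟩ := Function.Embedding.nonempty_of_card_le hk'
      have hk2 : ∀ i, k ≠ col i := by
        intro i h
        exact hnew (y (Classical.arbitrary α)).1 i ((y _).2.trans h)
      let Y : α ↪ V ⊕ ((V → Prop) × ((Fin r → α) × (Fin r × α))) :=
        ⟨fun a => .inr (f, β, (y a).1), by
          intro a a' h
          simp only [Sum.inr.injEq, Prod.mk.injEq, true_and] at h
          exact y.injective (Subtype.ext h)⟩
      refine ⟨⟨Fin.lastCases k col, ?_⟩,
        Fin.lastCases Y (fun i => (x i).trans Function.Embedding.inl), ?_, ?_⟩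
      · intro i j hij
        induction i using Fin.lastCases <;> induction j using Fin.lastCases
        · rfl
        · simp at hij; exact (hk2 _ hij).elim
        · simp at hij; exact (hk2 _ hij.symm).elim
        · simp at hij; rw [hij]
      · intro i a
        induction i using Fin.lastCases
        · simpa [Y] using (y a).2
        · simpa using hx1 _ a
      · intro i a a'
        induction i using Fin.lastCases
        · simp [ext, Y]
        · simpa [ext] using hx2 _ a a'

def cl (r t : ℕ) : SimpleGraph (Fin (r + 1) ⊕ (Fin r × Fin t)) where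
  Adj x y := match x, y with
    | .inl u, .inl v => u ≠ v
    | _, _ => False
  symm := ⟨by
    rintro (u | f) (v | g) h
    · exact h.symm
    · exact h
    · exact h
    · exact h⟩
  loopless := ⟨by
    rintro (u | f) h
    · exact h rfl
    · exact h⟩

theorem edgeless {α : Type} [Fintype α] (G : SimpleGraph α) (h2 : 2 ≤ Fintype.card α)
    (hG : ∀ a b, ¬ G.Adj a b) (r : ℕ) :
    ∃ (V : Type) (_ : Fintype V) (H : SimpleGraph V),
      H.chromaticNumber = (r + 1 : ℕ) ∧ IsLeast {k | FreeCol G H k} (r + 1) := by
  classical
  obtain ⟨t, ht⟩ : ∃ t, Fintype.card α = t + 1 := ⟨Fintype.card α - 1, by omega⟩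
  refine ⟨_, inferInstance, cl r t, ?_, ?_, ?_⟩
  · apply le_antisymm
    · apply Colorable.chromaticNumber_le
      refine ⟨Coloring.mk (fun v => match v with
        | .inl u => u
        | .inr _ => 0) ?_⟩
      rintro (u | f) (v | g) h
      · exact h
      · exact h.elim
      · exact h.elim
      · exact h.elim
    · have h1 : (⊤ : SimpleGraph (Fin (r + 1))).chromaticNumber ≤ (cl r t).chromaticNumber :=
        chromaticNumber_mono_of_hom ⟨Sum.inl, fun h => h⟩
      rw [chromaticNumber_top] at h1
      simpa using h1
  · refine ⟨fun v => match v with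
        | .inl _ => Fin.last r
        | .inr p => p.1.castSucc, ?_⟩
    intro e i h
    induction i using Fin.lastCases with
    | last =>
      have : Nontrivial α := Fintype.one_lt_card_iff_nontrivial.mp (by omega)
      obtain ⟨a, b, hab⟩ := exists_pair_ne α
      apply hG a b
      rw [← e.map_rel_iff]
      have ha := h a
      have hb := h b
      have hne : e a ≠ e b := fun h => hab (e.injective h)
      rcases hea : e a with u | f <;> rcases heb : e b with v | g <;>
        rw [hea] at ha hne <;> rw [heb] at hb hne
      · intro huv; exact hne (by rw [huv])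
      · exact ((Fin.castSucc_lt_last _).ne hb).elim
      · exact ((Fin.castSucc_lt_last _).ne ha).elim
      · exact ((Fin.castSucc_lt_last _).ne ha).elim
    | cast i =>
      have h3 : ∀ a, ∃ j : Fin t, e a = .inr (i, j) := by
        intro a
        have ha := h a
        rcases hea : e a with u | ⟨i', j⟩ <;> rw [hea] at ha
        · exact ((Fin.castSucc_lt_last _).ne' ha).elim
        · exact ⟨j, by simp at ha; rw [ha]⟩
      choose j hj using h3
      have : Function.Injective j := by
        intro a b hab
        apply e.injective
        rw [hj, hj, hab]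
      have := Fintype.card_le_of_injective j this
      simp at this
      omega
  · rintro k ⟨c, hc⟩
    by_contra hk
    let g : Option (Fin r × Fin t) → Fin (r + 1) ⊕ (Fin r × Fin t) := fun o => match o with
      | none => .inl 0
      | some p => .inr p
    have hg : Function.Injective g := by
      rintro (_ | p) (_ | q) h <;> simp_all [g]
    have hlt : Fintype.card (Fin k) * t < Fintype.card (Option (Fin r × Fin t)) := by
      have : k * t ≤ r * t := Nat.mul_le_mul_right _ (by omega)
      simp; omega
    obtain ⟨i, hi⟩ := Fintype.exists_lt_card_fiber_of_mul_lt_card (c ∘ g) hlt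
    have hk' : Fintype.card α ≤ Fintype.card {m // (c ∘ g) m = i} := by
      rw [Fintype.card_subtype, ht]; exact hi
    obtain ⟨y⟩ := Function.Embedding.nonempty_of_card_le hk'
    refine hc ⟨⟨fun a => g (y a).1, fun a b h => y.injective (Subtype.ext (hg h))⟩, ?_⟩ i
      (fun a => (y a).2)
    intro a b
    simp only [Function.Embedding.coeFn_mk, hG a b, iff_false]
    rcases (y a).1 with _ | p <;> rcases (y b).1 with _ | q <;> simp [g, cl]

theorem result (α : Type) [Fintype α] (G : SimpleGraph α) (h2 : 2 ≤ Fintype.card α)
    (hG : G.Colorable 2) (l : ℕ) (hl : 2 ≤ l) :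
    ∃ (V : Type) (_ : Fintype V) (H : SimpleGraph V),
      H.chromaticNumber = l ∧ IsLeast {k | FreeCol G H k} l := by
  classical
  obtain ⟨r, rfl⟩ : ∃ r, l = r + 1 := ⟨l - 1, by omega⟩
  by_cases hE : ∀ a b, ¬ G.Adj a b
  · exact edgeless G h2 hE r
  push Not at hE
  obtain ⟨a, b, hab⟩ := hE
  have : Nonempty α := ⟨a⟩
  obtain ⟨C⟩ := hG
  obtain ⟨V, iV, H, hcol, hH⟩ := key G (fun v => decide (C v = 0)) (by
    intro u v huv h
    have h1 := C.valid huv
    simp only [decide_eq_decide] at h
    omega) r (r + 1)
  have hfree : ∀ k, H.Colorable k → FreeCol G H k := by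
    rintro k ⟨D⟩
    refine ⟨D, fun e i h => ?_⟩
    exact D.valid (e.map_rel_iff.mpr hab) (by rw [h a, h b])
  have hlow : ∀ k, FreeCol G H k → r + 1 ≤ k := by
    rintro k ⟨c, hc⟩
    by_contra hk
    have hkr : k ≤ r := by omega
    obtain ⟨col, -⟩ := hH (fun v => (c v).castLE hkr) (by
      intro e i h
      refine hc e (c (e a)) (fun v => ?_)
      apply Fin.castLE_injective hkr
      rw [h v, h a]) (by omega)
    have := Fintype.card_le_of_embedding col
    simp at this
  refine ⟨V, iV, H, le_antisymm hcol.chromaticNumber_le ?_, hfree _ hcol, hlow⟩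
  rw [le_chromaticNumber_iff_colorable]
  intro k hk
  exact_mod_cast hlow k (hfree k hk)

end Pool.Agent.Results.MP_fbe9f6_co.Related
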